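import Pool.Agent.R323.HN.N

/-!
# MP_0e6b5f_nt: uniform boundedness of periodic points for all but few conjugacy classes of
# generalized Hénon maps

For all `D, B ≥ 1`, `d ≥ 2` and `ε > 0` there are `N` and `C` such that for every `X ≥ 1` the
following holds.  Consider all pairs `(K, f)` of a number field `K` of degree at most `D` and a
generalized Hénon map `f(x, y) = (y, F(y) - δ x)` of degree `d` over `K` of height at most `X` which
has more than `N` periodic points `P` over the algebraic numbers with `[K(P) : K] ≤ B`.  At most
`C X ^ ε` such pairs are pairwise non-conjugate, where `f` and `g` are conjugate if a coordinate change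
`(x, y) ↦ (α x + β, α y + β)` with `α ≠ 0` and `β` in a field of degree at most `(D B) ^ 2` over `ℚ`
takes `f` to `g`.  There is no restriction on the coefficients, on the Jacobian `δ` or on the field.

Proof.  Suppose not.  Then there are families of pairwise non-conjugate pairs with more than
`ν X_ν ^ ε` members and with periodic points of bounded degree and long period.  Looking at the largest
coordinate of the orbit at each place shows that `a_d z` is integral up to a small denominator for each
coordinate `z` of the orbit, and that all its conjugates are at most a power of `X_ν`.  The field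
generated by the coefficients and the point is generated by an algebraic integer `θ` of size at most a
power of `X_ν`, and with the trace form the map and the point are described by a vector of integers of
size at most a power of `X_ν`.  In an ultraproduct we get a generic internal set of such vectors, and a
Hénon map over its function field with an infinite two-sided orbit `(z_n)`.  By the determinant method
the coordinates `z_n` satisfy algebraic relations over the constants of degree bounded independently of
`n`, so over each function field of one variable they have bounded height.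

The theorem on function fields says that then all the ratios `(z_a - z_b) / (z_c - z_e)` are constant.
First, the Jacobian is constant: the span `W` of the `z_n` is finite-dimensional over the constant field
`k`, and reduction at the places where `δ` takes the value `c` gives for almost all `c` in `k` a Hénon
map over `k` with Jacobian `c` and an orbit `s_c`, where all the `s_c` lie in one finite-dimensional
space of sequences.  The ring generated by the `s_c` and their shifts is finitely generated and stable
under the shift, so a power `σ` of the shift acts on the residue field `E` of a minimal prime.  A Hénon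
map has no invariant curve on which all the elements of an orbit have bounded degree, so
`d s_c ∧ d s_c(· + 1)` is a nonzero two-form on `E` for almost all `c`, and it is an eigenvector of `σ`
with eigenvalue `c ^ m`; these infinitely many eigenvectors lie in a space of finite dimension, a
contradiction.  Second, for a constant Jacobian, Lagrange interpolation of the leading coefficient at
generic points of the orbit bounds the differences of generic points at each place, and the product
formula shows that `a_d (z_m - z_n) ^ (d - 1)` is constant for generic `m, n`; hence the orbit lies on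
a line `c + k l`.

So on the generic set the ratios take boundedly many values, and two different members have long
orbits which are similar; a long orbit determines the Hénon map, so the members are conjugate.
-/

set_option autoImplicit false

namespace Pool.Agent.Results.MP_0e6b5f_nt.FewExceptionalClasses

/-- The algebraic numbers; all number fields are subfields of this field. -/
abbrev Qbar : Type := AlgebraicClosure ℚ

/-- A generalized Hénon map of degree `d` over a number field `K` inside the algebraic numbers: the
coefficients `a 0, ..., a d` of `F`, with `a d ≠ 0`, and `δ ≠ 0`. -/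
structure HenonMap (d : ℕ) where
  /-- the field -/
  K : IntermediateField ℚ Qbar
  /-- it is a number field -/
  [numberField : NumberField K]
  /-- the coefficients of the polynomial `F` -/
  a : Fin (d + 1) → K
  /-- the Jacobian -/
  δ : K
  /-- the degree is `d` -/
  lead : a (Fin.last d) ≠ 0
  /-- the map is invertible -/
  jac : δ ≠ 0

attribute [instance] HenonMap.numberField

variable {d : ℕ}

/-- The map `f(x, y) = (y, F(y) - δ x)` on the plane over the algebraic numbers. -/
noncomputable def HenonMap.toFun (f : HenonMap d) (P : Qbar × Qbar) : Qbar × Qbar :=
  (P.2, ∑ i, (f.a i : Qbar) * P.2 ^ (i : ℕ) - (f.δ : Qbar) * P.1)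

/-- The height over `K` (relative, multiplicative) of the point `(1 : δ : a 0 : ... : a d)` of
projective space. -/
noncomputable def HenonMap.height (f : HenonMap d) : ℝ :=
  Height.mulHeight (Matrix.vecCons (1 : f.K) (Matrix.vecCons f.δ f.a))

/-- The periodic points `P` of `f` over the algebraic numbers with `[K(P) : K] ≤ B`. -/
def HenonMap.periodic (f : HenonMap d) (B : ℕ) : Set (Qbar × Qbar) :=
  {P | (∃ n : ℕ, 1 ≤ n ∧ f.toFun^[n] P = P) ∧
    Module.finrank f.K (IntermediateField.adjoin f.K {P.1, P.2}) ≤ B}

/-- The pair `(K, f)` is exceptional: `[K : ℚ] ≤ D`, the height of `f` is at most `X` and there are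
more than `N` periodic points `P` of `f` with `[K(P) : K] ≤ B`. -/
def HenonMap.Exceptional (D B N X : ℕ) (f : HenonMap d) : Prop :=
  Module.finrank ℚ f.K ≤ D ∧ f.height ≤ X ∧ (N : ℕ∞) < (f.periodic B).encard

/-- The maps are conjugate by a coordinate change `(x, y) ↦ (α x + β, α y + β)` with `α ≠ 0` and
`[ℚ(α, β) : ℚ] ≤ E`. -/
def Conjugate (E : ℕ) (f g : HenonMap d) : Prop :=
  ∃ α β : Qbar, α ≠ 0 ∧ Module.finrank ℚ (IntermediateField.adjoin ℚ {α, β}) ≤ E ∧
    ∀ x y : Qbar, g.toFun (α * x + β, α * y + β) =
      (α * (f.toFun (x, y)).1 + β, α * (f.toFun (x, y)).2 + β)

/-- **Few exceptional conjugacy classes of Hénon maps.**  For all `D, B ≥ 1`, `d ≥ 2` and `ε > 0`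
there are `N` and `C` such that for `X ≥ 1` every finite set of pairs `(K, f)` of a number field `K` of
degree at most `D` and a generalized Hénon map `f` of degree `d` over `K` of height at most `X` with
more than `N` periodic points `P` such that `[K(P) : K] ≤ B`, in which different members are not
conjugate by a coordinate change `(x, y) ↦ (α x + β, α y + β)` with `[ℚ(α, β) : ℚ] ≤ (D B) ^ 2`, has at
most `C X ^ ε` elements. -/
theorem result (D B d : ℕ) (hD : 1 ≤ D) (hB : 1 ≤ B) (hd : 2 ≤ d) (ε : ℝ) (hε : 0 < ε) :
    ∃ (N : ℕ) (C : ℝ), ∀ X : ℕ, 1 ≤ X → ∀ S : Finset (HenonMap d),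
      (∀ f ∈ S, f.Exceptional D B N X) →
      (∀ f ∈ S, ∀ g ∈ S, f ≠ g → ¬ Conjugate ((D * B) ^ 2) f g) →
      (S.card : ℝ) ≤ C * (X : ℝ) ^ ε := by
  classical
  obtain ⟨N, C, h⟩ := Pool.Agent.R323.HN.mainH d D B hd (Nat.mul_pos hD hB) ε hε
  refine ⟨N, C, fun X hX S hS hconj => ?_⟩
  have h1 := h X hX S (fun f => f.1.K) (fun f => f.1.a) (fun f => f.1.δ) (fun f => ?_)
    (fun f g hne => ?_)
  · rwa [Fintype.card_coe] at h1
  · obtain ⟨h2, h3, h4⟩ := hS f.1 f.2
    refine ⟨h2, f.1.lead, f.1.jac, h3, ?_⟩
    obtain ⟨t, hts, htc⟩ := Set.exists_subset_encard_eq (Order.add_one_le_of_lt h4)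
    have hfin : t.Finite := by
      apply Set.finite_of_encard_eq_coe (k := N + 1)
      rw [htc]
      norm_cast
    have hcard : hfin.toFinset.card = N + 1 := by
      have h5 := hfin.encard_eq_coe_toFinset_card
      rw [htc] at h5
      exact_mod_cast h5.symm
    refine ⟨hfin.toFinset, by omega, fun P hP => ?_⟩
    obtain ⟨⟨n, hn, hper⟩, hdeg⟩ := hts (hfin.mem_toFinset.1 hP)
    exact ⟨⟨n, hn, hper⟩, hdeg⟩
  · rintro ⟨α, β, hα, hfr, hδ, hF⟩
    refine hconj f.1 f.2 g.1 g.2 (fun h6 => hne (Subtype.ext h6)) ⟨α, β, hα, hfr, fun x y => ?_⟩
    have h7 := hF y
    apply Prod.ext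
    · rfl
    · show ∑ i, (g.1.a i : Qbar) * (α * y + β) ^ (i : ℕ) - (g.1.δ : Qbar) * (α * x + β) =
        α * (∑ i, (f.1.a i : Qbar) * y ^ (i : ℕ) - (f.1.δ : Qbar) * x) + β
      rw [h7, hδ]
      ring

end Pool.Agent.Results.MP_0e6b5f_nt.FewExceptionalClasses
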