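import Pool.Agent.R414.EF.Hn

/-!
# The limit law of the periodic points of bounded degree of the Hénon maps over `ℚ`

Let `D ≥ 1` and `d ≥ d₀(D)`. Among the integral vectors `(b, e, c_0, ..., c_d)` with entries of
absolute value at most `H` and `b e c_d ≠ 0` take those for which the generalized Hénon map
`(x, y) ↦ (y, (c_0 + c_1 y + ... + c_d y^d - e x) / b)` of degree `d` has at least one periodic point
of degree at most `D` over `ℚ`. Their number is asymptotically `κ H^(d + 2)` with some `κ > 0`; for 100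
percent of them there is exactly one such point, it is a rational fixed point `(z, z)`, and its
distribution converges: there is a probability measure `π` on `ℚ` such that for every `z ∈ ℚ` the
proportion of those with `(z, z)` as a fixed point and as the only periodic point of degree at most
`D` converges to `π(z)`; all `π(z)` are positive.

Proof. The number of vectors with at least two such points is `O(H^(d + 1))`. A unique periodic point
is fixed, so it is `(w, w)`, and the conjugates of `w` give fixed points, too. The vectors whose map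
fixes `(z, z)` form a lattice of rank `d + 2`, so there are asymptotically `a(z) H^(d + 2)` of them, and
the number of vectors with a fixed point `(z, z)`, `z ∈ ℚ` of height at least `2^κ`, is
`O(2^(-κ) H^(d + 2))`, uniformly in `H` and `κ`.
-/

set_option autoImplicit false

open Filter Topology

namespace Pool.Agent.Results.MP_0e6b5f_nt.FixedPointLimitLaw

/-- The integral vectors `(b, e, c_0, ..., c_d)`. -/
abbrev Coeffs (d : ℕ) : Type := ℤ × ℤ × (Fin (d + 1) → ℤ)

/-- All entries have absolute value at most `H`. -/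
def Small {d : ℕ} (H : ℕ) (v : Coeffs d) : Prop :=
  |v.1| ≤ H ∧ |v.2.1| ≤ H ∧ ∀ i, |v.2.2 i| ≤ H

/-- The map `(x, y) ↦ (y, (c_0 + c_1 y + ... + c_d y^d - e x) / b)` of the complex plane. -/
noncomputable def henon {d : ℕ} (v : Coeffs d) (P : ℂ × ℂ) : ℂ × ℂ :=
  (P.2, ((∑ i, (v.2.2 i : ℂ) * P.2 ^ (i : ℕ)) - v.2.1 * P.1) / v.1)

/-- The map is a generalized Hénon map of degree `d`: `b ≠ 0`, `e ≠ 0` and `c_d ≠ 0`. -/
def IsHenon {d : ℕ} (v : Coeffs d) : Prop := v.1 ≠ 0 ∧ v.2.1 ≠ 0 ∧ v.2.2 (Fin.last d) ≠ 0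

/-- `P` is a periodic point of degree at most `D` over `ℚ`: its coordinates lie in a number field of
degree at most `D`, and some iterate of the map fixes it. -/
def IsPeriodic {d : ℕ} (D : ℕ) (v : Coeffs d) (P : ℂ × ℂ) : Prop :=
  (∃ K : IntermediateField ℚ ℂ, FiniteDimensional ℚ K ∧ Module.finrank ℚ K ≤ D ∧
      P.1 ∈ K ∧ P.2 ∈ K) ∧ ∃ n : ℕ, 1 ≤ n ∧ (henon v)^[n] P = P

/-- The vectors of the box which give Hénon maps of degree `d` with a periodic point of degree at
most `D`. -/
def WithPoint (D d H : ℕ) : Set (Coeffs d) :=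
  {v | Small H v ∧ IsHenon v ∧ ∃ P, IsPeriodic D v P}

/-- The vectors of the box which give Hénon maps of degree `d` for which `(z, z)` is a fixed point
and the only periodic point of degree at most `D`. -/
def OnlyPoint (D d H : ℕ) (z : ℚ) : Set (Coeffs d) :=
  {v | Small H v ∧ IsHenon v ∧ henon v ((z : ℂ), (z : ℂ)) = ((z : ℂ), (z : ℂ)) ∧
    ∀ P, IsPeriodic D v P → P = ((z : ℂ), (z : ℂ))}

/-- **The limit law.** For all `D ≥ 1` and `d ≥ d₀(D)` there are `κ > 0` and a probability measure
`π` on `ℚ` with `π(z) > 0` for all `z`, such that the number of the vectors of the box which give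
Hénon maps with a periodic point of degree at most `D` is asymptotically `κ H^(d + 2)`, and for every
`z ∈ ℚ` the proportion of those of them for which `(z, z)` is a fixed point and the only periodic
point of degree at most `D` converges to `π(z)`. -/
theorem result (D : ℕ) (hD : 1 ≤ D) : ∃ d₀ : ℕ, ∀ d, d₀ ≤ d →
    ∃ (κ : ℝ) (π : ℚ → ℝ), 0 < κ ∧ (∀ z, 0 < π z) ∧ HasSum π 1 ∧
      Tendsto (fun H : ℕ => ((WithPoint D d H).ncard : ℝ) / (H : ℝ) ^ (d + 2)) atTop (𝓝 κ) ∧
      ∀ z : ℚ, Tendsto (fun H : ℕ => ((OnlyPoint D d H z).ncard : ℝ) / (WithPoint D d H).ncard)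
        atTop (𝓝 (π z)) := by
  obtain ⟨d₀, hd₀⟩ := Pool.Agent.R414.EF.Hn.hen_limit D hD
  refine ⟨d₀, fun d hd => ?_⟩
  obtain ⟨a, κ, hκ, ha, hsum, hS, hE⟩ := hd₀ d hd
  have e1 : ∀ H : ℕ, WithPoint D d H = {v | v ∈
      Pool.Agent.R414.EB.vbox d H ∧ (Pool.Agent.R414.EB.IsHen v ∧
        ∃ P, Pool.Agent.R414.EF.Hn.Per D v P)} := by
    intro H
    ext v
    unfold WithPoint
    rw [Set.mem_ofPred_eq, Set.mem_ofPred_eq, Pool.Agent.R414.EB.mem_vbox]
    rfl
  have e2 : ∀ (H : ℕ) (z : ℚ), OnlyPoint D d H z = {v | v ∈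
      Pool.Agent.R414.EB.vbox d H ∧ (Pool.Agent.R414.EB.IsHen v ∧
        Pool.Agent.R414.EB.hen ℂ v ((z : ℂ), (z : ℂ)) = ((z : ℂ), (z : ℂ)) ∧
        ∀ P, Pool.Agent.R414.EF.Hn.Per D v P → P = ((z : ℂ), (z : ℂ)))} := by
    intro H z
    ext v
    unfold OnlyPoint
    rw [Set.mem_ofPred_eq, Set.mem_ofPred_eq, Pool.Agent.R414.EB.mem_vbox]
    rfl
  have hS' : Tendsto (fun H : ℕ => ((WithPoint D d H).ncard : ℝ) / (H : ℝ) ^ (d + 2)) atTop
      (𝓝 κ) := by
    refine hS.congr fun H => ?_
    rw [e1]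
  refine ⟨κ, fun z => a z / κ, hκ, fun z => div_pos (ha z) hκ, ?_, hS', fun z => ?_⟩
  · have := hsum.div_const κ
    rwa [div_self hκ.ne'] at this
  · have h1 := (hE z).div hS' hκ.ne'
    refine h1.congr' ?_
    filter_upwards [eventually_ge_atTop 1] with H hH
    have hH0 : (0 : ℝ) < (H : ℝ) ^ (d + 2) := by
      have : (0 : ℝ) < H := by exact_mod_cast hH
      positivity
    rw [e2]
    exact div_div_div_cancel_right₀ hH0.ne' _ _

end Pool.Agent.Results.MP_0e6b5f_nt.FixedPointLimitLaw
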