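import Pool.Agent.R414.EB.Low

/-!
# The number of Hénon maps with at least `k` periodic points of bounded degree

For all `D, k ≥ 1` and all `d ≥ d₀(D, k)`: the number of the integral vectors `(b, e, c_0, ..., c_d)`
with entries of absolute value at most `H` and `b e c_d ≠ 0` for which the generalized Hénon map
`(x, y) ↦ (y, (c_0 + c_1 y + ... + c_d y^d - e x) / b)` of degree `d` has at least `k` periodic points
of degree at most `D` over `ℚ` has the exact order of magnitude `H^(d + 3 - e(k))`, where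
`e(k) = min(k, 1 + ⌈√k⌉)`. So for every `A` all but a proportion `O(H^(-A))` of all Hénon maps over
`ℚ` have at most `A^2` periodic points of degree at most `D`, for all large `d`.

Proof. Let `S` be the set of the coordinates of the points of `k` cycles. For all `s ∈ S` we have
`F(s) = b q + e p` with `p, q ∈ S`. If every `s ∈ S` has only one predecessor in the cycles, then `S`
has at least `k` elements, and these are `k` conditions; if there is an `s` with two predecessors, then
`e` is determined by `b` and `S`, and `S` has at least `√k` elements. Let `R` be the maximal height in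
`S`, `R ≤ ((d + 2) H)^D`. Given `m` elements of `S`, one of them of height `R`, the number of the
polynomials `F` with prescribed values at them is `O(H^(d + 1 - m) R^(-B))`: the integral polynomials
which vanish at them are counted by a maximal minor, and small polynomials have no zero of large
height. Then the bounds are summed over all `S`. The lower bound: the points `(j, j)` are fixed if
`F(j) = (b + e) j`, and the points `(i, j)`, `0 ≤ i, j < m`, are periodic if `e = b` and
`F(j) = b (m - 1)` for all `j < m`.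
-/

set_option autoImplicit false

namespace Pool.Agent.Results.MP_0e6b5f_nt.ManyPeriodicPoints

/-- The integral vectors `(b, e, c_0, ..., c_d)`. -/
abbrev Coeffs (d : ℕ) : Type := ℤ × ℤ × (Fin (d + 1) → ℤ)

/-- All entries have absolute value at most `H`. -/
def Small {d : ℕ} (H : ℕ) (v : Coeffs d) : Prop :=
  |v.1| ≤ H ∧ |v.2.1| ≤ H ∧ ∀ i, |v.2.2 i| ≤ H

/-- The map `(x, y) ↦ (y, (c_0 + c_1 y + ... + c_d y^d - e x) / b)` of the complex plane. -/
noncomputable def henon {d : ℕ} (v : Coeffs d) (P : ℂ × ℂ) : ℂ × ℂ :=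
  (P.2, ((∑ i, (v.2.2 i : ℂ) * P.2 ^ (i : ℕ)) - v.2.1 * P.1) / v.1)

/-- The map is a generalized Hénon map of degree `d`: `b ≠ 0`, `e ≠ 0` and `c_d ≠ 0`. -/
def IsHenon {d : ℕ} (v : Coeffs d) : Prop := v.1 ≠ 0 ∧ v.2.1 ≠ 0 ∧ v.2.2 (Fin.last d) ≠ 0

/-- The map has at least `k` periodic points of degree at most `D` over `ℚ`: there are `k` different
periodic points, each of them with coordinates in some number field of degree at most `D` (the fields
may be different). -/
def HasPeriodicPoints {d : ℕ} (D k : ℕ) (v : Coeffs d) : Prop :=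
  ∃ P : Fin k → ℂ × ℂ, Function.Injective P ∧
    ∀ i, (∃ K : IntermediateField ℚ ℂ, FiniteDimensional ℚ K ∧ Module.finrank ℚ K ≤ D ∧
        (P i).1 ∈ K ∧ (P i).2 ∈ K) ∧
      ∃ n : ℕ, 1 ≤ n ∧ (henon v)^[n] (P i) = P i

/-- The exponent `e(k) = min(k, 1 + ⌈√k⌉)` (for `k ≥ 1`). -/
noncomputable def ex (k : ℕ) : ℕ := min k (1 + ⌈Real.sqrt k⌉₊)

theorem ex_eq {k : ℕ} (hk : 1 ≤ k) : ex k = Pool.Agent.R414.EB.ek k := by
  have h : ⌈Real.sqrt k⌉₊ = Nat.sqrt (k - 1) + 1 := by
    apply le_antisymm
    · rw [Nat.ceil_le, Real.sqrt_le_left (by positivity)]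
      have h1 := Nat.lt_succ_sqrt (k - 1)
      have h2 : k ≤ (Nat.sqrt (k - 1) + 1) ^ 2 := by
        rw [sq]
        have : Nat.succ (Nat.sqrt (k - 1)) = Nat.sqrt (k - 1) + 1 := rfl
        rw [this] at h1
        omega
      exact_mod_cast h2
    · rw [Nat.succ_le_iff, Nat.lt_ceil]
      apply Real.lt_sqrt_of_sq_lt
      have h1 := Nat.sqrt_le (k - 1)
      have h2 : (Nat.sqrt (k - 1)) ^ 2 < k := by
        rw [sq]
        omega
      exact_mod_cast h2
  rw [ex, Pool.Agent.R414.EB.ek, h]
  congr 1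
  omega

/-- **The Hénon maps with at least `k` periodic points of degree at most `D`.** For all `D, k ≥ 1` and
all `d ≥ d₀(D, k)` the number of the integral vectors with entries of absolute value at most `H` which
give Hénon maps of degree `d` with at least `k` periodic points of degree at most `D` over `ℚ` is at
most `C H^(d + 3 - e(k))`, `e(k) = min(k, 1 + ⌈√k⌉)`, and already the number of those with at least
`k` rational periodic points is at least `c H^(d + 3 - e(k))`, `c > 0`, for all large `H`. -/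
theorem result (D k : ℕ) (hD : 1 ≤ D) (hk : 1 ≤ k) : ∃ d₀ : ℕ, ∀ d, d₀ ≤ d →
    ∃ (c C : ℝ) (H₀ : ℕ), 0 < c ∧ 0 < C ∧
      (∀ H : ℕ, 1 ≤ H →
        (({v | Small H v ∧ IsHenon v ∧ HasPeriodicPoints D k v} : Set (Coeffs d)).ncard : ℝ) ≤
          C * (H : ℝ) ^ (d + 3 - ex k)) ∧
      (∀ H : ℕ, H₀ ≤ H → c * (H : ℝ) ^ (d + 3 - ex k) ≤
        (({v | Small H v ∧ IsHenon v ∧ HasPeriodicPoints 1 k v} : Set (Coeffs d)).ncard : ℝ)) := by
  obtain ⟨d₀, hd₀⟩ := Pool.Agent.R414.EB.final D k hD hk
  refine ⟨d₀, fun d hd => ?_⟩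
  obtain ⟨c, C, H₀, hc, hC, h1, h2⟩ := hd₀ d hd
  rw [ex_eq hk]
  have hset : ∀ (D H : ℕ), ({v | Small H v ∧ IsHenon v ∧ HasPeriodicPoints D k v} : Set (Coeffs d)) =
      {v | v ∈ Pool.Agent.R414.EB.vbox d H ∧
        (Pool.Agent.R414.EB.IsHen v ∧ Pool.Agent.R414.EB.PerC D k v)} := by
    intro D H
    ext v
    rw [Set.mem_ofPred_eq, Set.mem_ofPred_eq, Pool.Agent.R414.EB.mem_vbox]
    rfl
  refine ⟨c, C, H₀, hc, hC, fun H hH => ?_, fun H hH => ?_⟩
  · rw [hset]
    exact h1 H hH
  · rw [hset]
    exact h2 H hH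

end Pool.Agent.Results.MP_0e6b5f_nt.ManyPeriodicPoints
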