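import Pool.Agent.Results.MP_0e6b5f_nt.AlmostAllIntegerMaps
import Pool.Agent.R482.ST.Vec

/-!
# Hénon maps with coefficients near the vectors of a sequence have no rational periodic points

Let `f_k`, `k = 0, 1, 2, …`, be positive functions on `(a₀, ∞)`, `a₀ ≥ 0`, such that `f_k(t) / t` is nondecreasing, and such
that the sequence `f_k(t)` has exponent of convergence at most `τ` for each `t > a₀`: for instance `f_k(t) = v_k t`
(dilatations; `τ` the exponent of convergence of `v_k > 0`), `f_k(t) = t ^ (v_k)` for exponents `v_k ≥ 1` (`τ = 0`), or the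
orbits `f_k(t) = g (g (⋯ g (t)))` of any map `g` with `g(t) > t` and `g(t) / t` nondecreasing (`τ = 0`). Let
`d ≥ 2` and `θ < 1`. For all vectors `u` in `ℝ^(d+1) × ℝ` (maximum norm), `‖u‖ > a₀`, outside a set of Hausdorff dimension
at most `(d + 2 - 1/10 + τ) / (1 - θ)` and each `c`, for all but finitely many `k`: ALL generalized Hénon maps
`(x, y) ↦ (y, F(y) - δ x)` of degree `d` whose integral coefficients differ by at most `c r ^ θ` from the components of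
`(r / ‖u‖) u`, `r = f_k(‖u‖)`, have no rational periodic point.
-/

set_option autoImplicit false

namespace Pool.Agent.Results.MP_0e6b5f_nt.StarshapedIntegerMaps

open AlmostAllIntegerMaps (henon maps mapsWithPeriodicPoint)

/-- the functions `f n` are positive on `(a, ∞)`, `a ≥ 0`, and `f n x / x` is nondecreasing there -/
def Starshaped (a : ℝ) (f : ℕ → ℝ → ℝ) : Prop :=
  0 ≤ a ∧ ∀ n : ℕ, ∀ x y : ℝ, a < x → x ≤ y → 0 < f n x ∧ f n x / x ≤ f n y / y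

/-- for each `x > a` the exponent of convergence of the sequence `f n x` is at most `τ` -/
def ExpLe (a : ℝ) (f : ℕ → ℝ → ℝ) (τ : ℝ) : Prop :=
  ∀ x : ℝ, a < x → ∀ t : ℝ, τ < t → Summable (fun n : ℕ => (f n x) ^ (-t))

/-- the coefficients of `F` and `δ` differ by at most `ρ` from the components of `(g ‖u‖ / ‖u‖) u` -/
def Near {d : ℕ} (g : ℝ → ℝ) (ρ : ℝ) (u : (Fin (d + 1) → ℝ) × ℝ) (a : Fin (d + 1) → ℤ) (δ : ℤ) : Prop :=
  (∀ i, |(a i : ℝ) - g ‖u‖ / ‖u‖ * u.1 i| ≤ ρ) ∧ |(δ : ℝ) - g ‖u‖ / ‖u‖ * u.2| ≤ ρ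

lemma fin_maps (d H : ℕ) : {q : (Fin (d + 1) → ℤ) × ℤ | (∀ i, |q.1 i| ≤ (H : ℤ)) ∧ |q.2| ≤ (H : ℤ)}.Finite := by
  classical
  refine ((Finset.finite_toSet (Fintype.piFinset fun _ : Fin (d + 1) => Finset.Icc (-(H : ℤ)) H)).prod
    (Set.finite_Icc (-(H : ℤ)) H)).subset fun q hq => ?_
  refine ⟨?_, ?_⟩
  · rw [Finset.mem_coe, Fintype.mem_piFinset]
    intro i
    rw [Finset.mem_Icc]
    exact abs_le.mp (hq.1 i)
  · exact Set.mem_Icc.2 (abs_le.mp hq.2)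

/-- **Theorem.** Let `d ≥ 2`, `f` starshaped functions on `(a₀, ∞)` of exponent of convergence at most `τ ≥ 0` and `θ < 1`.
There is a set `E` of Hausdorff dimension at most `(d + 2 - 1/10 + τ) / (1 - θ)` such that for each `u` outside `E`,
`‖u‖ > a₀`, each `c` and all but finitely many `k`, ALL Hénon maps `(x, y) ↦ (y, F(y) - δ x)`, `F = ∑ a_i y^i` of degree `d`
and `δ ≠ 0`, with integral coefficients near `(r / ‖u‖) u`, `r = f_k(‖u‖)` (`Near`, with `c r ^ θ`), have no rational periodic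
point. The functions `v_n x`, `v_n > 0`, are starshaped on `(0, ∞)`, of exponent `τ` if `v` has exponent of convergence at most
`τ`; the functions `x ^ (v_n)`, `v_n ≥ 1`, are starshaped on `(1, ∞)`, of exponent `0` if the sums of `exp (-t v_n)` converge
for `t > 0`; and the iterates of a map `g` with `g(x) > x` for `x > a` and `g(x) / x` nondecreasing are starshaped on
`(a, ∞)`, of exponent `0`. -/
theorem result :
    (∀ d : ℕ, 2 ≤ d → ∀ (f : ℕ → ℝ → ℝ) (a₀ τ θ : ℝ), Starshaped a₀ f → 0 ≤ τ → ExpLe a₀ f τ → θ < 1 →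
      ∃ E : Set ((Fin (d + 1) → ℝ) × ℝ), dimH E ≤ ENNReal.ofReal (((d : ℝ) + 2 - 1 / 10 + τ) / (1 - θ)) ∧
        ∀ u : (Fin (d + 1) → ℝ) × ℝ, a₀ < ‖u‖ → u ∉ E → ∀ c : ℝ, ∃ k₀ : ℕ, ∀ k : ℕ, k₀ ≤ k →
          ∀ (a : Fin (d + 1) → ℤ) (δ : ℤ), a (Fin.last d) ≠ 0 → δ ≠ 0 → Near (f k) (c * (f k ‖u‖) ^ θ) u a δ →
            ∀ (P : ℚ × ℚ) (n : ℕ), 1 ≤ n → (henon (fun i => (a i : ℚ)) (δ : ℚ))^[n] P ≠ P) ∧
    (∀ (v : ℕ → ℝ) (τ : ℝ), (∀ n, 0 < v n) → (∀ t : ℝ, τ < t → Summable (fun n : ℕ => (v n) ^ (-t))) →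
      Starshaped 0 (fun n x => v n * x) ∧ ExpLe 0 (fun n x => v n * x) τ) ∧
    (∀ v : ℕ → ℝ, (∀ n, 1 ≤ v n) → (∀ t : ℝ, 0 < t → Summable fun n : ℕ => Real.exp (-(t * v n))) →
      Starshaped 1 (fun n x => x ^ (v n)) ∧ ExpLe 1 (fun n x => x ^ (v n)) 0) ∧
    (∀ (a : ℝ) (g : ℝ → ℝ), 0 ≤ a → (∀ x y : ℝ, a < x → x ≤ y → g x / x ≤ g y / y) → (∀ x : ℝ, a < x → x < g x) →
      Starshaped a (fun n x => g^[n] x) ∧ ExpLe a (fun n x => g^[n] x) 0) := by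
  refine ⟨fun d hd f a₀ τ θ hf hτ hv hθ => ?_, Pool.Agent.R482.ST.ex_mul, Pool.Agent.R482.ST.ex_pow, Pool.Agent.R482.ST.ex_orbit⟩
  obtain ⟨⟨C, hC⟩, -⟩ := AlmostAllIntegerMaps.result d hd
  have hnorm : ∀ (q : (Fin (d + 1) → ℤ) × ℤ) (X : ℝ),
      ‖((fun i => (q.1 i : ℝ), (q.2 : ℝ)) : (Fin (d + 1) → ℝ) × ℝ)‖ ≤ X ↔
        (∀ i, |(q.1 i : ℝ)| ≤ X) ∧ |(q.2 : ℝ)| ≤ X := by
    intro q X
    rw [Prod.norm_def, max_le_iff, pi_norm_le_iff_of_nonempty]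
    rfl
  have hfinX : ∀ X : ℝ, {q : (Fin (d + 1) → ℤ) × ℤ | (∀ i, |(q.1 i : ℝ)| ≤ X) ∧ |(q.2 : ℝ)| ≤ X}.Finite := by
    intro X
    refine (fin_maps d ⌈X⌉₊).subset fun q hq => ?_
    have h2 : X ≤ (⌈X⌉₊ : ℝ) := Nat.le_ceil X
    refine ⟨fun i => ?_, ?_⟩
    · have g3 := (hq.1 i).trans h2
      exact_mod_cast g3
    · have g3 := hq.2.trans h2
      exact_mod_cast g3
  have hs : (0 : ℝ) ≤ (d : ℝ) + 2 - 1 / 10 := by
    have : (0 : ℝ) ≤ d := Nat.cast_nonneg d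
    linarith
  obtain ⟨E, hE, h1⟩ := Pool.Agent.R482.ST.prop_windows (W := (Fin (d + 1) → ℝ) × ℝ)
    {q : (Fin (d + 1) → ℤ) × ℤ | q.1 (Fin.last d) ≠ 0 ∧ q.2 ≠ 0} (fun q => (fun i => (q.1 i : ℝ), (q.2 : ℝ)))
    (fun q X => (∀ i, |(q.1 i : ℝ)| ≤ X) ∧ |(q.2 : ℝ)| ≤ X)
    (fun q _ => ∃ P : ℚ × ℚ, ∃ n : ℕ, 1 ≤ n ∧ (henon (fun i => (q.1 i : ℚ)) (q.2 : ℚ))^[n] P = P)
    (fun q X h => (hnorm q X).1 h) (fun _ _ _ _ h => h) (fun X => by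
      simp only [hnorm]
      exact hfinX X) hs (fun ε hε => by
        refine ⟨|C| * 2 ^ ((d : ℝ) + 2 - 1 / 10 + ε), fun X hX => ?_⟩
        refine ⟨(hfinX X).subset fun q hq => hq.2.1, ?_⟩
        have hX0 : 0 < X := by linarith
        have h1 : 1 ≤ ⌈X⌉₊ := Nat.one_le_ceil_iff.2 hX0
        have h2 : X ≤ (⌈X⌉₊ : ℝ) := Nat.le_ceil X
        have h3 : (⌈X⌉₊ : ℝ) ≤ 2 * X := by
          have := Nat.ceil_lt_add_one hX0.le
          linarith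
        have h1' : (1 : ℝ) ≤ (⌈X⌉₊ : ℝ) := by exact_mod_cast h1
        have hsub : {q : (Fin (d + 1) → ℤ) × ℤ | q ∈ {q : (Fin (d + 1) → ℤ) × ℤ | q.1 (Fin.last d) ≠ 0 ∧ q.2 ≠ 0} ∧
            ((∀ i, |(q.1 i : ℝ)| ≤ X) ∧ |(q.2 : ℝ)| ≤ X) ∧
            ∃ P : ℚ × ℚ, ∃ n : ℕ, 1 ≤ n ∧ (henon (fun i => (q.1 i : ℚ)) (q.2 : ℚ))^[n] P = P} ⊆
            mapsWithPeriodicPoint d ⌈X⌉₊ := by
          rintro q ⟨⟨g1, g2⟩, ⟨g3, g4⟩, g5⟩
          refine ⟨⟨fun i => ?_, ?_, g1, g2⟩, g5⟩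
          · have g6 := (g3 i).trans h2
            exact_mod_cast g6
          · have g6 := g4.trans h2
            exact_mod_cast g6
        have hfin : (mapsWithPeriodicPoint d ⌈X⌉₊).Finite :=
          (fin_maps d ⌈X⌉₊).subset fun q hq => ⟨hq.1.1, hq.1.2.1⟩
        refine (Nat.cast_le.2 (Set.ncard_le_ncard hsub hfin)).trans ((hC _ h1).trans ?_)
        calc C * (⌈X⌉₊ : ℝ) ^ ((d : ℝ) + 2 - 1 / 10) ≤ |C| * (⌈X⌉₊ : ℝ) ^ ((d : ℝ) + 2 - 1 / 10 + ε) :=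
              mul_le_mul (le_abs_self C) (Real.rpow_le_rpow_of_exponent_le h1' (by linarith)) (by positivity)
                (abs_nonneg C)
          _ ≤ |C| * (2 * X) ^ ((d : ℝ) + 2 - 1 / 10 + ε) :=
              mul_le_mul_of_nonneg_left (Real.rpow_le_rpow (by positivity) h3 (by linarith)) (abs_nonneg C)
          _ = |C| * 2 ^ ((d : ℝ) + 2 - 1 / 10 + ε) * X ^ ((d : ℝ) + 2 - 1 / 10 + ε) := by
              rw [Real.mul_rpow (by norm_num) hX0.le, mul_assoc]) f a₀ τ θ hf hτ hv hθ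
  refine ⟨E, hE, fun u hu huE c => ?_⟩
  obtain ⟨k0, h2⟩ := h1 u hu huE c
  refine ⟨k0, fun k hk a δ ha hδ hn P n hn1 hP => h2 k hk (a, δ) ⟨ha, hδ⟩ ?_ ⟨P, n, hn1, hP⟩⟩
  rw [Prod.norm_def]
  refine max_le ?_ hn.2
  rw [pi_norm_le_iff_of_nonempty]
  exact hn.1

end Pool.Agent.Results.MP_0e6b5f_nt.StarshapedIntegerMaps
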